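import Pool.Agent.H290R3.HHG.NotSQC
import Mathlib.GroupTheory.SpecificGroups.Dihedral

/-!
# The almost malnormal subgroup is infinite dihedral and isometrically embedded
-/

set_option autoImplicit false

open Quaternion

namespace Pool.Agent.Y79.HM

open Pool.Agent.H290R3.HHGDefs Pool.Agent.H290R3.HHG

/-- the generator of infinite order -/
def b : QG := cl bP

/-- the involution -/
def k : QG := cl kP

theorem b_mem : b ∈ HH := ⟨bP, rfl, Or.inl ⟨rfl, rfl⟩⟩

theorem k_mem : k ∈ HH := ⟨kP, rfl, Or.inr ⟨rfl, by simp [kP]⟩⟩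

theorem kk : k * k = 1 := A_sq (x := kP) ⟨rfl, by simp [kP]⟩

theorem kb : k * b = b⁻¹ * k := by
  unfold k b
  rw [cl_inv, ← cl_mul, ← cl_mul]
  congr 1

theorem kinv : k⁻¹ = k := by
  rw [inv_eq_iff_mul_eq_one]
  exact kk

theorem kbk : k * b * k⁻¹ = b⁻¹ := by
  rw [kb, mul_assoc, mul_inv_cancel, mul_one]

theorem kbz (i : ℤ) : k * b ^ i = b ^ (-i) * k := by
  have h : k * b ^ i * k⁻¹ = b ^ (-i) := by
    rw [← conj_zpow, kbk, inv_zpow, zpow_neg]
  rw [← h]
  group

theorem bkz (i : ℤ) : b ^ i * k = k * b ^ (-i) := by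
  rw [kbz, neg_neg]

theorem k_ne_one : k ≠ 1 := by
  intro h
  have h1 : cl kP = cl 1 := h
  rw [cl_eq_iff] at h1
  obtain ⟨m, n, hm, hn, e⟩ := h1
  have h2 := congrArg (·.re) e
  simp [kP] at h2
  exact hn h2.symm

theorem bz_eq_one {i : ℤ} (h : b ^ i = 1) : i = 0 := by
  obtain ⟨n, rfl | rfl⟩ := i.eq_nat_or_neg
  · rw [zpow_natCast] at h
    have h1 := rr3_b_pow n
    rw [show (cl bP) ^ n = 1 from h, rr_one] at h1
    omega
  · rw [zpow_neg, inv_eq_one, zpow_natCast] at h
    have h1 := rr3_b_pow n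
    rw [show (cl bP) ^ n = 1 from h, rr_one] at h1
    omega

theorem kb_ne_one (i : ℤ) : k * b ^ i ≠ 1 := by
  intro h
  have h1 : k = b ^ (-i) := by
    rw [mul_eq_one_iff_eq_inv] at h
    rw [h, zpow_neg]
  have h2 : b ^ (-i + -i) = 1 := by
    rw [zpow_add, ← h1, kk]
  have h3 := bz_eq_one h2
  have h4 : i = 0 := by omega
  rw [h4, zpow_zero, mul_one] at h
  exact k_ne_one h

/-- the homomorphism from the infinite dihedral group -/
def dih : DihedralGroup 0 →* QG where
  toFun x := match x with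
    | DihedralGroup.r i => b ^ (show ℤ from i)
    | DihedralGroup.sr i => k * b ^ (show ℤ from i)
  map_one' := by
    show b ^ (0 : ℤ) = 1
    exact zpow_zero _
  map_mul' := by
    rintro (i | i) (j | j)
    · show b ^ ((show ℤ from i) + (show ℤ from j)) = _
      exact zpow_add _ _ _
    · show k * b ^ ((show ℤ from j) - (show ℤ from i)) = b ^ (show ℤ from i) * (k * b ^ (show ℤ from j))
      rw [← mul_assoc, bkz, mul_assoc, ← zpow_add]
      congr 2
      ring
    · show k * b ^ ((show ℤ from i) + (show ℤ from j)) = (k * b ^ (show ℤ from i)) * b ^ (show ℤ from j)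
      rw [mul_assoc, ← zpow_add]
    · show b ^ ((show ℤ from j) - (show ℤ from i)) =
        (k * b ^ (show ℤ from i)) * (k * b ^ (show ℤ from j))
      rw [kbz, mul_assoc, ← mul_assoc k k, kk, one_mul, ← zpow_add]
      congr 1
      ring

theorem dih_r (i : ℤ) : dih (DihedralGroup.r i) = b ^ i := rfl

theorem dih_sr (i : ℤ) : dih (DihedralGroup.sr i) = k * b ^ i := rfl

theorem dih_injective : Function.Injective dih := by
  rw [injective_iff_map_eq_one]
  rintro (i | i) h
  · have h1 : (show ℤ from i) = 0 := bz_eq_one (i := i) h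
    show DihedralGroup.r i = DihedralGroup.r 0
    congr 1
  · exact absurd h (kb_ne_one i)

theorem dih_mem (x : DihedralGroup 0) : dih x ∈ HH := by
  rcases x with i | i
  · exact HH.zpow_mem b_mem _
  · exact HH.mul_mem k_mem (HH.zpow_mem b_mem _)

theorem dih_range : dih.range = HH := by
  apply le_antisymm
  · rintro _ ⟨x, rfl⟩
    exact dih_mem x
  · rw [HH_eq, Subgroup.closure_le]
    rintro g (rfl | rfl)
    · exact ⟨DihedralGroup.r (1 : ℤ), by rw [dih_r, zpow_one]; rfl⟩
    · exact ⟨DihedralGroup.sr (0 : ℤ), by rw [dih_sr, zpow_zero, mul_one]; rfl⟩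

theorem dihedral : Nonempty (HH ≃* DihedralGroup 0) := by
  have e1 : DihedralGroup 0 ≃* dih.range := MonoidHom.ofInjective dih_injective
  have e2 : dih.range ≃* HH := MulEquiv.subgroupCongr dih_range
  exact ⟨(e1.trans e2).symm⟩

theorem HH_cases {g : QG} (hg : g ∈ HH) : ∃ i : ℤ, g = b ^ i ∨ g = k * b ^ i := by
  rw [← dih_range] at hg
  obtain ⟨(i | i), rfl⟩ := hg
  · exact ⟨i, Or.inl rfl⟩
  · exact ⟨i, Or.inr rfl⟩

theorem b_gen : b ∈ gens := ⟨bP, rfl, Or.inr (Or.inl bP_norm)⟩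

theorem k_gen : k ∈ gens := ⟨kP, rfl, Or.inl kP_norm⟩

theorem kb_gen : k * b ∈ gens := ⟨kP * bP, cl_mul _ _, Or.inr (Or.inl (by
  rw [Submonoid.coe_mul, map_mul, kP_norm, bP_norm, one_mul]))⟩

theorem kb_gen' : k * b⁻¹ ∈ gens := by
  have h : k * b⁻¹ = b * k := by
    have := bkz 1
    rw [zpow_one, zpow_neg, zpow_one] at this
    exact this.symm
  rw [h]
  exact ⟨bP * kP, cl_mul _ _, Or.inr (Or.inl (by
    rw [Submonoid.coe_mul, map_mul, kP_norm, bP_norm, mul_one]))⟩

theorem closure_inter : Subgroup.closure (gens ∩ (HH : Set QG)) = HH := by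
  apply le_antisymm
  · rw [Subgroup.closure_le]
    exact Set.inter_subset_right
  · conv_lhs => rw [HH_eq]
    rw [Subgroup.closure_le]
    rintro g (rfl | rfl)
    · exact Subgroup.subset_closure ⟨b_gen, b_mem⟩
    · exact Subgroup.subset_closure ⟨k_gen, k_mem⟩

theorem rr3_k : rr 3 k = 0 := (rr_letter1 kP_norm).2

theorem rr3_bz (n : ℕ) : rr 3 (b ^ (-(n : ℤ))) = n := by
  rw [zpow_neg, rr_inv, zpow_natCast]
  exact rr3_b_pow n

theorem rr3_bz' (n : ℕ) : rr 3 (b ^ (n : ℤ)) = n := by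
  rw [zpow_natCast]
  exact rr3_b_pow n

theorem rr3_kb (i : ℤ) : rr 3 (b ^ i) ≤ rr 3 (k * b ^ i) := by
  have h := rr_mul 3 k⁻¹ (k * b ^ i)
  rw [inv_mul_cancel_left, rr_inv, rr3_k, zero_add] at h
  exact h

/-- every element of the subgroup has a short word -/
theorem short_word {g : QG} (hg : g ∈ HH) : ∃ L : List QG, L.length ≤ wordLen gens g ∧
    (∀ x ∈ L, x ∈ gens ∩ (HH : Set QG) ∨ x⁻¹ ∈ gens ∩ (HH : Set QG)) ∧ L.prod = g := by
  have hb : b ∈ gens ∩ (HH : Set QG) := ⟨b_gen, b_mem⟩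
  obtain ⟨i, rfl | rfl⟩ := HH_cases hg
  · obtain ⟨n, rfl | rfl⟩ := i.eq_nat_or_neg
    · refine ⟨List.replicate n b, ?_, ?_, ?_⟩
      · have h := le_wordLen (b ^ (n : ℤ))
        rw [rr3_bz'] at h
        rw [List.length_replicate]
        omega
      · intro x hx
        rw [List.eq_of_mem_replicate hx]
        exact Or.inl hb
      · rw [List.prod_replicate, zpow_natCast]
    · refine ⟨List.replicate n b⁻¹, ?_, ?_, ?_⟩
      · have h := le_wordLen (b ^ (-(n : ℤ)))
        rw [rr3_bz] at h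
        rw [List.length_replicate]
        omega
      · intro x hx
        rw [List.eq_of_mem_replicate hx, inv_inv]
        exact Or.inr hb
      · rw [List.prod_replicate, zpow_neg, zpow_natCast, inv_pow]
  · obtain ⟨n, rfl | rfl⟩ := i.eq_nat_or_neg
    · rcases n with _ | n
      · refine ⟨[k], ?_, ?_, ?_⟩
        · obtain ⟨L, h1, h2, h3⟩ := wordLen_exists (k * b ^ ((0 : ℕ) : ℤ))
          rw [List.length_singleton]
          by_contra hc
          have h4 : L.length = 0 := by omega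
          rw [List.length_eq_zero_iff] at h4
          rw [h4, List.prod_nil] at h3
          exact kb_ne_one _ h3.symm
        · intro x hx
          rw [List.mem_singleton] at hx
          rw [hx]
          exact Or.inl ⟨k_gen, k_mem⟩
        · simp
      · refine ⟨(k * b) :: List.replicate n b, ?_, ?_, ?_⟩
        · have h := le_wordLen (k * b ^ ((n + 1 : ℕ) : ℤ))
          have h2 := rr3_kb ((n + 1 : ℕ) : ℤ)
          rw [rr3_bz'] at h2
          rw [List.length_cons, List.length_replicate]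
          omega
        · intro x hx
          rw [List.mem_cons] at hx
          rcases hx with rfl | hx
          · exact Or.inl ⟨kb_gen, HH.mul_mem k_mem b_mem⟩
          · rw [List.eq_of_mem_replicate hx]
            exact Or.inl hb
        · rw [List.prod_cons, List.prod_replicate, zpow_natCast, pow_succ', mul_assoc]
    · rcases n with _ | n
      · refine ⟨[k], ?_, ?_, ?_⟩
        · obtain ⟨L, h1, h2, h3⟩ := wordLen_exists (k * b ^ (-((0 : ℕ) : ℤ)))
          rw [List.length_singleton]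
          by_contra hc
          have h4 : L.length = 0 := by omega
          rw [List.length_eq_zero_iff] at h4
          rw [h4, List.prod_nil] at h3
          exact kb_ne_one _ h3.symm
        · intro x hx
          rw [List.mem_singleton] at hx
          rw [hx]
          exact Or.inl ⟨k_gen, k_mem⟩
        · simp
      · refine ⟨(k * b⁻¹) :: List.replicate n b⁻¹, ?_, ?_, ?_⟩
        · have h := le_wordLen (k * b ^ (-((n + 1 : ℕ) : ℤ)))
          have h2 := rr3_kb (-((n + 1 : ℕ) : ℤ))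
          rw [rr3_bz] at h2
          rw [List.length_cons, List.length_replicate]
          omega
        · intro x hx
          rw [List.mem_cons] at hx
          rcases hx with rfl | hx
          · exact Or.inl ⟨kb_gen', HH.mul_mem k_mem (HH.inv_mem b_mem)⟩
          · rw [List.eq_of_mem_replicate hx, inv_inv]
            exact Or.inr hb
        · rw [List.prod_cons, List.prod_replicate, zpow_neg, zpow_natCast, ← inv_pow, pow_succ',
            mul_assoc]

/-- the subgroup is isometrically embedded -/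
theorem isometric {g : QG} (hg : g ∈ HH) :
    wordLen (gens ∩ (HH : Set QG)) g = wordLen gens g := by
  obtain ⟨L, h1, h2, h3⟩ := short_word hg
  apply le_antisymm
  · exact le_trans (Nat.sInf_le ⟨L, rfl, h2, h3⟩) h1
  · have h4 := Nat.sInf_mem (s := {n | ∃ l : List QG, l.length = n ∧
      (∀ x ∈ l, x ∈ gens ∩ (HH : Set QG) ∨ x⁻¹ ∈ gens ∩ (HH : Set QG)) ∧ l.prod = g})
      ⟨_, L, rfl, h2, h3⟩
    obtain ⟨M, m1, m2, m3⟩ := h4
    refine Nat.sInf_le ⟨M, m1, ?_, m3⟩
    intro x hx
    rcases m2 x hx with h | h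
    · exact Or.inl h.1
    · exact Or.inr h.1

/-- the intersection with a conjugate has at most one nontrivial element -/
theorem inter_conj {g : QG} (hg : g ∉ HH) :
    {x : QG | x ∈ HH ∧ ∃ h ∈ HH, x = g * h * g⁻¹}.encard ≤ 2 := by
  have key : ∀ x ∈ {x : QG | x ∈ HH ∧ ∃ h ∈ HH, x = g * h * g⁻¹},
      ∀ y ∈ {x : QG | x ∈ HH ∧ ∃ h ∈ HH, x = g * h * g⁻¹}, x ≠ 1 → y ≠ 1 → x = y := by
    rintro x ⟨hx, h, hh, rfl⟩ y ⟨hy, k, hk, rfl⟩ hx1 hy1
    rcases conj_cases hg hh hx with h1 | ⟨⟨a, ha, haA⟩, ⟨b, hb, hbA⟩⟩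
    · exact absurd h1 hx1
    rcases conj_cases hg hk hy with h1 | ⟨⟨c, hc, hcA⟩, ⟨d, hd, hdA⟩⟩
    · exact absurd h1 hy1
    have hprod : g * (h * k) * g⁻¹ = (g * h * g⁻¹) * (g * k * g⁻¹) := by group
    rcases conj_cases hg (HH.mul_mem hh hk) (by rw [hprod]; exact HH.mul_mem hx hy) with
      h1 | ⟨⟨e, he, heA⟩, _⟩
    · rw [hprod] at h1
      have h2 : (g * k * g⁻¹) * (g * k * g⁻¹) = 1 := by
        rw [← hd]; exact A_sq hdA
      rw [mul_eq_one_iff_eq_inv] at h1 h2
      rw [h1, ← h2]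
    · exfalso
      have hac : cl e = cl (a * c) := by rw [he, cl_mul, ha, hc]
      obtain ⟨m, n, hm, hn, heq⟩ := cl_eq_iff.mp hac
      have h3 : m * (e : ℍ[ℤ]).re = n * ((a * c : PM) : ℍ[ℤ]).re := by
        have := congrArg (·.re) heq
        simpa using this
      rw [heA.1, mul_zero] at h3
      have hK : inK ((a * c : PM) : ℍ[ℤ]) := by
        rw [Submonoid.coe_mul]; exact A_mul_A haA hcA
      exact mul_ne_zero hn (K_odd (a * c).2 hK) h3.symm
  set S := {x : QG | x ∈ HH ∧ ∃ h ∈ HH, x = g * h * g⁻¹} with hS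
  have h1 : (S \ {1}).Subsingleton := by
    rintro x ⟨hx, hx1⟩ y ⟨hy, hy1⟩
    exact key x hx y hy (by simpa using hx1) (by simpa using hy1)
  have h2 : S ⊆ insert 1 (S \ {1}) := by
    intro x hx
    by_cases h : x = 1
    · exact Or.inl h
    · exact Or.inr ⟨hx, h⟩
  calc S.encard ≤ (insert 1 (S \ {1})).encard := Set.encard_le_encard h2
    _ ≤ (S \ {1}).encard + 1 := Set.encard_insert_le _ _
    _ ≤ 1 + 1 := by
      gcongr
      exact Set.encard_le_one_iff_subsingleton.mpr h1
    _ = 2 := by norm_num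

/-- quasi-geodesics with end points in the subgroup which go away linearly -/
theorem far (n : ℕ) : ∃ p : ℕ → QG, IsQuasiGeodesic gens 3 1 (3 * n + 1) p ∧ p 0 ∈ HH ∧
    p (3 * n + 1) ∈ HH ∧ ∀ h ∈ HH, n ≤ wordDist gens (p n) h := by
  obtain ⟨p, h0, hpn, hN, hq⟩ := path_qg n
  refine ⟨p, hq, by rw [h0]; exact HH.one_mem, by rw [hN]; exact HH.pow_mem b_mem n, ?_⟩
  intro x hx
  rw [hpn]
  have h1 := le_wordLen (((cl cP) ^ n)⁻¹ * x)
  have h2 := rr_mul 5 ((((cl cP) ^ n)⁻¹ * x)) x⁻¹
  rw [show ((cl cP) ^ n)⁻¹ * x * x⁻¹ = ((cl cP) ^ n)⁻¹ by group, rr_inv, rr_inv, rr5_c_pow,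
    rr5_HH hx] at h2
  unfold wordDist
  omega

end Pool.Agent.Y79.HM
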